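import Pool.Agent.Helper73.EK.DefsE2
import Pool.Agent.Helper73.EK.Pois
set_option autoImplicit false
open Complex MeasureTheory Metric Set
open scoped Real ComplexConjugate

/-! Project EK, E2: exchange of the integrals in the entropy loss, and the integral of
`(t₂ - t) / sinh² t`. -/

namespace Pool.Agent.Helper5.EK

open Pool.Agent.Helper52.EK Pool.Agent.Helper73.EK

/-- exchange of two interval integrals of a continuous function -/
theorem swap2 {F : ℝ → ℝ → ℝ} (hF : Continuous (Function.uncurry F)) (a b c d : ℝ) :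
    ∫ x in a..b, ∫ y in c..d, F x y = ∫ y in c..d, ∫ x in a..b, F x y := by
  refine MeasureTheory.intervalIntegral_intervalIntegral_swap ?_
  have h1 : IntegrableOn (Function.uncurry F) (uIcc a b ×ˢ uIcc c d) :=
    hF.continuousOn.integrableOn_compact (isCompact_uIcc.prod isCompact_uIcc)
  exact h1.mono_set (prod_mono uIoc_subset_uIcc uIoc_subset_uIcc)

/-- exchange of three interval integrals of a continuous function -/
theorem swap3 {F : ℝ → ℝ → ℝ → ℝ}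
    (hF : Continuous fun p : ℝ × ℝ × ℝ => F p.1 p.2.1 p.2.2) (a b c d e f : ℝ) :
    ∫ t in a..b, ∫ θ in c..d, ∫ α in e..f, F t θ α =
      ∫ α in e..f, ∫ t in a..b, ∫ θ in c..d, F t θ α := by
  have h1 : ∀ t : ℝ, ∫ θ in c..d, ∫ α in e..f, F t θ α = ∫ α in e..f, ∫ θ in c..d, F t θ α := by
    intro t
    apply swap2
    exact hF.comp (by fun_prop : Continuous fun q : ℝ × ℝ => (t, q.1, q.2))
  simp_rw [h1]
  apply swap2
  have h2 : Continuous (Function.uncurry fun (q : ℝ × ℝ) (θ : ℝ) => F q.1 θ q.2) :=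
    hF.comp (by fun_prop : Continuous fun q : (ℝ × ℝ) × ℝ => (q.1.1, q.2, q.1.2))
  exact intervalIntegral.continuous_parametric_intervalIntegral_of_continuous' h2 c d

theorem cont_inner {F : ℝ → ℝ → ℝ → ℝ}
    (hF : Continuous fun p : ℝ × ℝ × ℝ => F p.1 p.2.1 p.2.2) (c d e f : ℝ) :
    Continuous fun t : ℝ => ∫ θ in c..d, ∫ α in e..f, F t θ α := by
  have h2 : Continuous (Function.uncurry fun (q : ℝ × ℝ) (α : ℝ) => F q.1 q.2 α) :=
    hF.comp (by fun_prop : Continuous fun q : (ℝ × ℝ) × ℝ => (q.1.1, q.1.2, q.2))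
  have h3 := intervalIntegral.continuous_parametric_intervalIntegral_of_continuous' (μ := volume)
    h2 e f
  have h4 : Continuous (Function.uncurry fun (t : ℝ) (θ : ℝ) => ∫ α in e..f, F t θ α) := h3
  exact intervalIntegral.continuous_parametric_intervalIntegral_of_continuous' h4 c d

/-- the integrand, with the height cut at `t₂` -/
noncomputable def Hc (ρ : ℝ → ℝ) (w : ℂ → ℂ) (t₂ t θ α : ℝ) : ℝ :=
  ρ α * (Pk (Complex.exp (α * I)) (ep (min t t₂) θ) *
    ‖ee (Complex.exp (α * I)) (ep (min t t₂) θ) - w (ep (min t t₂) θ)‖ ^ 2 /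
      Real.sinh (min t t₂) ^ 2)

theorem Hc_cont {ρ : ℝ → ℝ} (hρ : Continuous ρ) {w : ℂ → ℂ}
    (hw : ContinuousOn w {z | 0 < ‖z‖ ∧ ‖z‖ < 1}) {t₂ : ℝ} (h2 : t₂ < 0) :
    Continuous fun p : ℝ × ℝ × ℝ => Hc ρ w t₂ p.1 p.2.1 p.2.2 := by
  have hm : ∀ t : ℝ, min t t₂ < 0 := fun t => lt_of_le_of_lt (min_le_right _ _) h2
  have he : Continuous fun p : ℝ × ℝ × ℝ => ep (min p.1 t₂) p.2.1 := by
    unfold ep
    fun_prop
  have hwc : Continuous fun p : ℝ × ℝ × ℝ => w (ep (min p.1 t₂) p.2.1) := by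
    refine hw.comp_continuous he fun p => ⟨?_, norm_ep_lt (hm _) _⟩
    rw [norm_ep]
    exact Real.exp_pos _
  have hne : ∀ p : ℝ × ℝ × ℝ, Complex.exp (p.2.2 * I) - ep (min p.1 t₂) p.2.1 ≠ 0 := fun p =>
    sub_ne_zero_of (norm_cis _) (norm_ep_lt (hm _) _)
  have hs : ∀ p : ℝ × ℝ × ℝ, Real.sinh (min p.1 t₂) ^ 2 ≠ 0 := fun p =>
    pow_ne_zero _ (Real.sinh_neg_iff.2 (hm _)).ne
  have hp : Continuous fun p : ℝ × ℝ × ℝ => Pk (Complex.exp (p.2.2 * I)) (ep (min p.1 t₂) p.2.1) := by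
    unfold Pk
    refine Continuous.div (by fun_prop) (by fun_prop) fun p => ?_
    have := hne p
    positivity
  have hee : Continuous fun p : ℝ × ℝ × ℝ => ee (Complex.exp (p.2.2 * I)) (ep (min p.1 t₂) p.2.1) := by
    unfold ee
    refine Continuous.div ?_ (by fun_prop) hne
    have h3 : Continuous fun p : ℝ × ℝ × ℝ => conj (ep (min p.1 t₂) p.2.1) :=
      Complex.continuous_conj.comp he
    fun_prop
  unfold Hc
  refine Continuous.mul (by fun_prop) ?_
  refine Continuous.div ?_ (by fun_prop) hs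
  exact hp.mul ((hee.sub hwc).norm.pow 2)

theorem kk_eq {ρ : ℝ → ℝ} {w : ℂ → ℂ} {t₂ t : ℝ} (ht : t ≤ t₂) :
    kk ρ w t = (2 * π)⁻¹ * ((2 * π)⁻¹ * ∫ θ in (-π)..π, ∫ α in (0:ℝ)..(2 * π), Hc ρ w t₂ t θ α) := by
  unfold kk Hc
  rw [min_eq_left ht, intervalIntegral.integral_const_mul]

theorem kk_intervalIntegrable {ρ : ℝ → ℝ} (hρ : Continuous ρ) {w : ℂ → ℂ}
    (hw : ContinuousOn w {z | 0 < ‖z‖ ∧ ‖z‖ < 1}) {t₂ : ℝ} (h2 : t₂ < 0) {t₀ : ℝ} (h0 : t₀ ≤ t₂) :
    IntervalIntegrable (fun t => (t₂ - t) * kk ρ w t) volume t₀ t₂ := by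
  have h1 : ContinuousOn (fun t => (t₂ - t) * kk ρ w t) (uIcc t₀ t₂) := by
    have h3 : Continuous fun t : ℝ => (t₂ - t) * ((2 * π)⁻¹ * ((2 * π)⁻¹ *
        ∫ θ in (-π)..π, ∫ α in (0:ℝ)..(2 * π), Hc ρ w t₂ t θ α)) := by
      have := cont_inner (Hc_cont hρ hw h2) (-π) π 0 (2 * π)
      fun_prop
    refine h3.continuousOn.congr fun t ht => ?_
    rw [uIcc_of_le h0] at ht
    show (t₂ - t) * kk ρ w t = _
    rw [kk_eq ht.2]
  exact h1.intervalIntegrable

theorem fub {ρ : ℝ → ℝ} (hρ : Continuous ρ) {w : ℂ → ℂ}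
    (hw : ContinuousOn w {z | 0 < ‖z‖ ∧ ‖z‖ < 1}) {t₂ : ℝ} (h2 : t₂ < 0) {t₀ : ℝ} (h0 : t₀ ≤ t₂) :
    ∫ t in t₀..t₂, (t₂ - t) * kk ρ w t =
      (2 * π)⁻¹ * ∫ α in (0:ℝ)..(2 * π), ρ α * Kf w (Complex.exp (α * I)) t₀ t₂ := by
  have hH := Hc_cont hρ hw h2
  have e1 : ∫ t in t₀..t₂, (t₂ - t) * kk ρ w t =
      ∫ t in t₀..t₂, (2 * π)⁻¹ * ((2 * π)⁻¹ * ∫ θ in (-π)..π, ∫ α in (0:ℝ)..(2 * π),
        (t₂ - t) * Hc ρ w t₂ t θ α) := by
    refine intervalIntegral.integral_congr fun t ht => ?_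
    rw [uIcc_of_le h0] at ht
    show (t₂ - t) * kk ρ w t = _
    rw [kk_eq ht.2]
    simp_rw [intervalIntegral.integral_const_mul]
    ring
  have e2 : ∀ α : ℝ, ρ α * Kf w (Complex.exp (α * I)) t₀ t₂ =
      (2 * π)⁻¹ * ∫ t in t₀..t₂, ∫ θ in (-π)..π, (t₂ - t) * Hc ρ w t₂ t θ α := by
    intro α
    unfold Kf
    have e3 : ∫ t in t₀..t₂, ∫ θ in (-π)..π, (t₂ - t) * Hc ρ w t₂ t θ α =
        ∫ t in t₀..t₂, ρ α * ∫ θ in (-π)..π, (t₂ - t) * Pk (Complex.exp (α * I)) (ep t θ) *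
          ‖ee (Complex.exp (α * I)) (ep t θ) - w (ep t θ)‖ ^ 2 / Real.sinh t ^ 2 := by
      refine intervalIntegral.integral_congr fun t ht => ?_
      rw [uIcc_of_le h0] at ht
      show ∫ θ in (-π)..π, (t₂ - t) * Hc ρ w t₂ t θ α = _
      rw [← intervalIntegral.integral_const_mul]
      refine intervalIntegral.integral_congr fun θ _ => ?_
      show (t₂ - t) * Hc ρ w t₂ t θ α = _
      unfold Hc
      rw [min_eq_left ht.2]
      ring
    rw [e3, intervalIntegral.integral_const_mul]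
    ring
  rw [e1, intervalIntegral.integral_const_mul, intervalIntegral.integral_const_mul]
  simp_rw [e2]
  rw [intervalIntegral.integral_const_mul]
  rw [swap3 (F := fun t θ α => (t₂ - t) * Hc ρ w t₂ t θ α)]
  fun_prop

/-- the antiderivative -/
theorem int_sinh {t₂ : ℝ} (h1 : -1 ≤ t₂) (h2 : t₂ < 0) :
    ∫ t in (-1)..t₂, (t₂ - t) * (1 / Real.sinh t ^ 2) =
      -Real.log (Real.sinh (-t₂)) - (t₂ + 1) * (Real.cosh 1 / Real.sinh 1) +
        Real.log (Real.sinh 1) := by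
  have hd : ∀ t ∈ uIcc (-1) t₂, HasDerivAt (fun t => -((t₂ - t) * (Real.cosh t / Real.sinh t)) -
      Real.log (Real.sinh t)) ((t₂ - t) * (1 / Real.sinh t ^ 2)) t := by
    intro t ht
    rw [uIcc_of_le h1] at ht
    have hs : Real.sinh t ≠ 0 := (Real.sinh_neg_iff.2 (lt_of_le_of_lt ht.2 h2)).ne
    have d1 : HasDerivAt (fun t => t₂ - t) (-1) t := by
      simpa using (hasDerivAt_id t).const_sub t₂
    have d2 : HasDerivAt (fun t => Real.cosh t / Real.sinh t)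
        ((Real.sinh t * Real.sinh t - Real.cosh t * Real.cosh t) / Real.sinh t ^ 2) t :=
      (Real.hasDerivAt_cosh t).div (Real.hasDerivAt_sinh t) hs
    have d3 : HasDerivAt (fun t => Real.log (Real.sinh t)) (Real.cosh t / Real.sinh t) t :=
      (Real.hasDerivAt_sinh t).log hs
    have d4 := ((d1.mul d2).neg).sub d3
    refine d4.congr_deriv ?_
    have hcs : Real.cosh t ^ 2 = Real.sinh t ^ 2 + 1 := Real.cosh_sq t
    field_simp
    rw [hcs]
    ring
  have hc : IntervalIntegrable (fun t => (t₂ - t) * (1 / Real.sinh t ^ 2)) volume (-1) t₂ := by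
    apply ContinuousOn.intervalIntegrable
    intro t ht
    rw [uIcc_of_le h1] at ht
    have hs : Real.sinh t ≠ 0 := (Real.sinh_neg_iff.2 (lt_of_le_of_lt ht.2 h2)).ne
    have hs2 : Real.sinh t ^ 2 ≠ 0 := pow_ne_zero _ hs
    apply ContinuousAt.continuousWithinAt
    exact (by fun_prop : ContinuousAt (fun t => t₂ - t) t).mul
      (ContinuousAt.div (by fun_prop) (Real.continuous_sinh.continuousAt.pow 2) hs2)
  rw [intervalIntegral.integral_eq_sub_of_hasDerivAt hd hc]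
  rw [Real.sinh_neg, Real.cosh_neg, Real.sinh_neg, Real.log_neg_eq_log, Real.log_neg_eq_log]
  have hs1 : Real.sinh 1 ≠ 0 := (Real.sinh_pos_iff.2 one_pos).ne'
  field_simp
  ring

theorem sinh_neg_log {a : ℝ} (h0 : 0 < a) : Real.sinh (-Real.log a) = (1 - a ^ 2) / (2 * a) := by
  rw [Real.sinh_neg, Real.sinh_eq, Real.exp_neg, Real.exp_log h0]
  field_simp
  ring

theorem int_ge {a : ℝ} (ha : Real.exp (-1) < a) (ha1 : a < 1) :
    -Real.log (1 - a ^ 2) - (1 + Real.cosh 1 / Real.sinh 1 + |Real.log (Real.sinh 1)|) ≤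
      ∫ t in (-1)..(Real.log a), (Real.log a - t) * (1 / Real.sinh t ^ 2) := by
  have h0 : 0 < a := lt_trans (Real.exp_pos _) ha
  have hl1 : -1 < Real.log a := by
    rw [Real.lt_log_iff_exp_lt h0]
    exact ha
  have hl2 : Real.log a < 0 := Real.log_neg h0 ha1
  rw [int_sinh hl1.le hl2, sinh_neg_log h0]
  have h3 : 0 < 1 - a ^ 2 := by nlinarith
  rw [Real.log_div h3.ne' (by positivity), Real.log_mul (by norm_num) h0.ne']
  have h4 : 0 ≤ Real.log 2 := Real.log_nonneg (by norm_num)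
  have h5 : 0 < Real.cosh 1 / Real.sinh 1 :=
    div_pos (Real.cosh_pos 1) (Real.sinh_pos_iff.2 one_pos)
  have h6 : -|Real.log (Real.sinh 1)| ≤ Real.log (Real.sinh 1) := neg_abs_le _
  have h7 : (Real.log a + 1) * (Real.cosh 1 / Real.sinh 1) ≤ 1 * (Real.cosh 1 / Real.sinh 1) :=
    mul_le_mul_of_nonneg_right (by linarith) h5.le
  linarith

end Pool.Agent.Helper5.EK
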