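import Pool.Agent.Helper5.EK.EntropyB
import Pool.Agent.Helper93.EK.E2b
set_option autoImplicit false
open Complex MeasureTheory Metric Set
open scoped Real ComplexConjugate

/-! Project EK, E2: the entropy inequality. -/

namespace Pool.Agent.Helper5.EK

open Pool.Agent.Helper52.EK

/-- E2: the entropy inequality (assembly) -/
theorem entropy : ∃ C : ℝ, ∀ (ρ : ℝ → ℝ) (w : ℂ → ℂ) (a : ℝ), Dens ρ →
    ContinuousOn w {z | 0 < ‖z‖ ∧ ‖z‖ < 1} → Real.exp (-1) < a → a < 1 →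
    -Real.log (1 - a ^ 2) - C ≤ (2 * π)⁻¹ * (∫ α in (0:ℝ)..(2 * π), ρ α * Real.log (ρ α)) +
      (2 * π)⁻¹ * ∫ α in (0:ℝ)..(2 * π), ρ α * Kf w (Complex.exp (α * I)) (-1) (Real.log a) :=
  entropy_of_E2b fun _ _ h hw _ ht => Pool.Agent.Helper93.EK.E2b h hw ht

end Pool.Agent.Helper5.EK
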