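import Pool.Agent.Helper5.EK.EntropyH
import Pool.Agent.Helper48.EK.Diff
import Pool.Agent.Helper6.EK.E2c
import Pool.Agent.Helper73.EK.E2d
set_option autoImplicit false
open Complex MeasureTheory Metric Set
open scoped Real ComplexConjugate

/-! Project EK, E2: the entropy inequality from the variance inequality E2b. -/

namespace Pool.Agent.Helper5.EK

open Pool.Agent.Helper52.EK

theorem entropy_of_E2b
    (hE2b : ∀ (ρ : ℝ → ℝ) (w : ℂ → ℂ), Dens ρ → ContinuousOn w {z | 0 < ‖z‖ ∧ ‖z‖ < 1} →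
      ∀ t : ℝ, t < 0 → 1 / Real.sinh t ^ 2 - kk ρ w t ≤ A2 ρ t) :
    ∃ C : ℝ, ∀ (ρ : ℝ → ℝ) (w : ℂ → ℂ) (a : ℝ), Dens ρ →
    ContinuousOn w {z | 0 < ‖z‖ ∧ ‖z‖ < 1} → Real.exp (-1) < a → a < 1 →
    -Real.log (1 - a ^ 2) - C ≤ (2 * π)⁻¹ * (∫ α in (0:ℝ)..(2 * π), ρ α * Real.log (ρ α)) +
      (2 * π)⁻¹ * ∫ α in (0:ℝ)..(2 * π), ρ α * Kf w (Complex.exp (α * I)) (-1) (Real.log a) :=
  entropy_of (fun _ h _ ht => Pool.Agent.Helper48.EK.E2a h ht) hE2b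
    Pool.Agent.Helper6.EK.E2c (fun _ h _ ht => Pool.Agent.Helper73.EK.E2d h ht)

end Pool.Agent.Helper5.EK
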