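import Pool.Agent.Helper5.EK.Fub
set_option autoImplicit false
open Complex MeasureTheory Metric Set
open scoped Real ComplexConjugate

/-! Project EK, E2: the entropy inequality, from the four parts E2a to E2d as hypotheses. -/

namespace Pool.Agent.Helper5.EK

open Pool.Agent.Helper52.EK Pool.Agent.Helper73.EK

/-- Taylor's formula of order two with the integral remainder -/
theorem taylor2 {f f1 f2 : ℝ → ℝ} {t₀ t₂ : ℝ} (h0 : t₀ ≤ t₂) (h2 : t₂ < 0)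
    (hf : ∀ t : ℝ, t < 0 → HasDerivAt f (f1 t) t ∧ HasDerivAt f1 (f2 t) t ∧ ContinuousAt f2 t) :
    ∫ t in t₀..t₂, (t₂ - t) * f2 t = f t₂ - f t₀ - (t₂ - t₀) * f1 t₀ := by
  have hd : ∀ t ∈ uIcc t₀ t₂, HasDerivAt (fun t => f t + (t₂ - t) * f1 t) ((t₂ - t) * f2 t) t := by
    intro t ht
    rw [uIcc_of_le h0] at ht
    obtain ⟨a1, a2, -⟩ := hf t (lt_of_le_of_lt ht.2 h2)
    have d1 : HasDerivAt (fun t => t₂ - t) (-1) t := by
      simpa using (hasDerivAt_id t).const_sub t₂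
    refine (a1.add (d1.mul a2)).congr_deriv ?_
    ring
  have hc : IntervalIntegrable (fun t => (t₂ - t) * f2 t) volume t₀ t₂ := by
    apply ContinuousOn.intervalIntegrable
    intro t ht
    rw [uIcc_of_le h0] at ht
    obtain ⟨-, -, a3⟩ := hf t (lt_of_le_of_lt ht.2 h2)
    exact ((by fun_prop : ContinuousAt (fun t => t₂ - t) t).mul a3).continuousWithinAt
  rw [intervalIntegral.integral_eq_sub_of_hasDerivAt hd hc]
  ring

theorem entropy_of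
    (hE2a : ∀ ρ : ℝ → ℝ, Dens ρ → ∀ t : ℝ, t < 0 →
      HasDerivAt (AA ρ) (A1 ρ t) t ∧ HasDerivAt (A1 ρ) (A2 ρ t) t ∧ ContinuousAt (A2 ρ) t)
    (hE2b : ∀ (ρ : ℝ → ℝ) (w : ℂ → ℂ), Dens ρ → ContinuousOn w {z | 0 < ‖z‖ ∧ ‖z‖ < 1} →
      ∀ t : ℝ, t < 0 → 1 / Real.sinh t ^ 2 - kk ρ w t ≤ A2 ρ t)
    (hE2c : ∃ C : ℝ, ∀ ρ : ℝ → ℝ, Dens ρ → 0 ≤ AA ρ (-1) ∧ -C ≤ A1 ρ (-1))
    (hE2d : ∀ ρ : ℝ → ℝ, Dens ρ → ∀ t : ℝ, t < 0 →
      AA ρ t ≤ (2 * π)⁻¹ * ∫ α in (0:ℝ)..(2 * π), ρ α * Real.log (ρ α)) :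
    ∃ C : ℝ, ∀ (ρ : ℝ → ℝ) (w : ℂ → ℂ) (a : ℝ), Dens ρ →
    ContinuousOn w {z | 0 < ‖z‖ ∧ ‖z‖ < 1} → Real.exp (-1) < a → a < 1 →
    -Real.log (1 - a ^ 2) - C ≤ (2 * π)⁻¹ * (∫ α in (0:ℝ)..(2 * π), ρ α * Real.log (ρ α)) +
      (2 * π)⁻¹ * ∫ α in (0:ℝ)..(2 * π), ρ α * Kf w (Complex.exp (α * I)) (-1) (Real.log a) := by
  obtain ⟨C, hC⟩ := hE2c
  refine ⟨1 + Real.cosh 1 / Real.sinh 1 + |Real.log (Real.sinh 1)| + |C|, ?_⟩
  intro ρ w a h hw ha ha1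
  have h0 : 0 < a := lt_trans (Real.exp_pos _) ha
  have hl1 : -1 < Real.log a := by
    rw [Real.lt_log_iff_exp_lt h0]
    exact ha
  have hl2 : Real.log a < 0 := Real.log_neg h0 ha1
  set t₂ : ℝ := Real.log a with ht₂
  obtain ⟨c1, c2⟩ := hC ρ h
  have hT := taylor2 hl1.le hl2 (fun t ht => hE2a ρ h t ht)
  have hF := fub h.cont hw hl2 hl1.le
  have hK := kk_intervalIntegrable h.cont hw hl2 hl1.le
  have hS : IntervalIntegrable (fun t => (t₂ - t) * (1 / Real.sinh t ^ 2)) volume (-1) t₂ := by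
    apply ContinuousOn.intervalIntegrable
    intro t ht
    rw [uIcc_of_le hl1.le] at ht
    have hs : Real.sinh t ≠ 0 := (Real.sinh_neg_iff.2 (lt_of_le_of_lt ht.2 hl2)).ne
    have hs2 : Real.sinh t ^ 2 ≠ 0 := pow_ne_zero _ hs
    apply ContinuousAt.continuousWithinAt
    exact (by fun_prop : ContinuousAt (fun t => t₂ - t) t).mul
      (ContinuousAt.div (by fun_prop) (Real.continuous_sinh.continuousAt.pow 2) hs2)
  have hA : IntervalIntegrable (fun t => (t₂ - t) * A2 ρ t) volume (-1) t₂ := by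
    apply ContinuousOn.intervalIntegrable
    intro t ht
    rw [uIcc_of_le hl1.le] at ht
    obtain ⟨-, -, a3⟩ := hE2a ρ h t (lt_of_le_of_lt ht.2 hl2)
    exact ((by fun_prop : ContinuousAt (fun t => t₂ - t) t).mul a3).continuousWithinAt
  have hM : ∫ t in (-1)..t₂, ((t₂ - t) * (1 / Real.sinh t ^ 2) - (t₂ - t) * kk ρ w t) ≤
      ∫ t in (-1)..t₂, (t₂ - t) * A2 ρ t := by
    refine intervalIntegral.integral_mono_on hl1.le (hS.sub hK) hA fun t ht => ?_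
    have h5 := hE2b ρ w h hw t (lt_of_le_of_lt ht.2 hl2)
    have h6 : 0 ≤ t₂ - t := by linarith [ht.2]
    have h7 := mul_le_mul_of_nonneg_left h5 h6
    linarith [h7, mul_sub (t₂ - t) (1 / Real.sinh t ^ 2) (kk ρ w t)]
  rw [intervalIntegral.integral_sub hS hK, hF, hT] at hM
  have hI := int_ge ha ha1
  have hD := hE2d ρ h t₂ hl2
  have hC1 : -|C| ≤ (t₂ - -1) * A1 ρ (-1) := by
    have h8 : 0 ≤ t₂ - -1 := by linarith
    have h9 : t₂ - -1 ≤ 1 := by linarith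
    have h10 : -|C| ≤ A1 ρ (-1) := le_trans (neg_le_neg (le_abs_self C)) c2
    have h11 := mul_le_mul_of_nonneg_left h10 h8
    have h12 : (t₂ - -1) * |C| ≤ 1 * |C| := mul_le_mul_of_nonneg_right h9 (abs_nonneg C)
    linarith [h11, h12]
  linarith [hM, hI, hD, hC1, c1]

end Pool.Agent.Helper5.EK
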